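import Pool.Agent.Z702.Fin
import Pool.Agent.Y809.BSD14.Tam3
import Pool.Agent.Y809.BSD14.Selb
import Pool.Agent.Y248.BSD14.Omega
import Pool.Agent.Y814.BSD14.SEL
import Pool.Agent.Y641.BSD14.T2
import Pool.Agent.Y641.BSD14.T7

/-!
# The leading-term formula of Birch and Swinnerton-Dyer modulo two for ALL twists of `X_0(14)` by
products of arbitrarily many split primes and of an even number of inert primes

`E_M : Y² = X (X² + 13 M X + 128 M²)` is the quadratic twist of `X_0(14)` by `M`, with the global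
minimal equation `WM M` (`M = 1 mod 4` squarefree, prime to `7`). Its field of `2`-division is
`ℚ(√-7)`. Here `M` is the product of the primes in `P` (congruent to `1` modulo `8` and split in this
field) and in `S` (an even number of primes, congruent to `5` modulo `8` and inert). The analytic
order of `Ш(E_M)`, that is `L(E_M, 1) #E_M(ℚ)_tors² / (Ω ∏ c_l)`, is the square of an integer `y` up
to a `2`-adic unit, and `y` is odd if and only if `E_M(ℚ)` is finite and `Ш(E_M)[2] = 0`, if and only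
if an explicit matrix over `𝔽₂` is nonsingular; in this case this is the exact `2`-part of the
formula.
-/

set_option autoImplicit false

open Finset

namespace Pool.Agent.Results.MP_92892c_nt.FormulaModuloTwo

open Pool.Agent.W97.MT (affCount IsGloballyMinimal)
open Pool.Agent.Y700 (WM Omega tamProd IsL EQ)

/-- primes inert in `ℚ(√-7)` and in `ℚ(√2)` and congruent to `1` modulo `4` -/
def Inert (q : ℕ) : Prop := q.Prime ∧ q % 8 = 5 ∧ (q % 7 = 3 ∨ q % 7 = 5 ∨ q % 7 = 6)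

/-- primes congruent to `1` modulo `8` that split in `ℚ(√-7)` -/
def Split (p : ℕ) : Prop := p.Prime ∧ p % 8 = 1 ∧ (p % 7 = 1 ∨ p % 7 = 2 ∨ p % 7 = 4)

open Classical in
/-- the matrix over `𝔽₂` with rows and columns indexed by the primes in `P`: off the diagonal the
entry at `(p, p')` is `1` if `p'` is not a square modulo `p` and `0` otherwise; on the diagonal it
is the number of the primes in `P` different from `p` which are not squares modulo `p`, plus `1` if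
the number of points of `E_m` modulo `p` is not divisible by `8` -/
noncomputable def R (P : Finset ℕ) (m : ℕ) : Matrix P P (ZMod 2) := Matrix.of fun i j =>
  if i = j then
    (((P.filter fun p' : ℕ => p' ≠ (i : ℕ) ∧ ¬ IsSquare (p' : ZMod (i : ℕ))).card : ZMod 2) +
      if 8 ∣ affCount (WM (m : ℤ)) (i : ℕ) + 1 then 0 else 1)
  else if IsSquare (((j : ℕ)) : ZMod (i : ℕ)) then 0 else 1

/-- `E(ℚ)` is finite and `Ш(E/ℚ)` has no element of order two -/
def RankZeroShaTwo (W : WeierstrassCurve ℤ) : Prop :=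
  Finite (EQ W).toAffine.Point ∧ ∀ x : Pool.Agent.TH841.SH.D.Sha (EQ W), 2 • x = 0 → x = 0

/-- For the curve with the global minimal equation `W`: there are a `2`-adic unit `w ∈ ℚ` and an
integer `y` with `L(E, 1) = w y² Ω ∏ c_l / #E(ℚ)_tors²`, and `y` is odd if and only if `E(ℚ)` is
finite and `Ш(E/ℚ)[2] = 0`; in this case `E(ℚ)` is its torsion subgroup, `L(E, 1)` is not zero, and
`Ш(E/ℚ)[2^∞] = 0`. -/
def FormulaModTwo (W : WeierstrassCurve ℤ) : Prop :=
  IsGloballyMinimal W ∧ (∃ f, IsL W f) ∧ ∃ y : ℤ, (Odd y ↔ RankZeroShaTwo W) ∧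
    (Odd y → ∀ (n : ℕ) (x : Pool.Agent.TH841.SH.D.Sha (EQ W)), 2 ^ n • x = 0 → x = 0) ∧
    ∀ f, IsL W f → (Odd y → f 1 ≠ 0) ∧ ∃ w : ℚ, w ≠ 0 ∧ padicValRat 2 w = 0 ∧
      f 1 = (((w : ℝ) * (y : ℝ) ^ 2 * (Omega W * tamProd W /
        (Nat.card (AddCommGroup.torsion (EQ W).toAffine.Point) : ℝ) ^ 2) : ℝ) : ℂ)

theorem result (P S : Finset ℕ) (hP : ∀ p ∈ P, Split p) (hS : ∀ q ∈ S, Inert q)
    (hne : P.Nonempty) :
    (Even S.card → FormulaModTwo (WM (((∏ p ∈ P, p) * ∏ q ∈ S, q : ℕ) : ℤ))) ∧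
    (RankZeroShaTwo (WM (((∏ p ∈ P, p) * ∏ q ∈ S, q : ℕ) : ℤ)) ↔ (R P (∏ q ∈ S, q)).det ≠ 0) ∧
    {q : ℕ | Inert q ∧ q ∉ S ∧ (R P (∏ r ∈ insert q S, r)).det ≠ 0}.Infinite := by
  classical
  have hP' : ∀ p ∈ P, Z701.Sp p := hP
  have e : ∀ (T : Finset ℕ) (p : ℕ), p ∈ P → (∀ q ∈ T, Pool.Agent.Y687.Inert q) →
      affCount (WM ((∏ q ∈ T, q : ℕ) : ℤ)) p + 1 = Pool.Agent.Y687.NN (∏ q ∈ T, q) p := by
    intro T p hpP hT
    have hp := hP p hpP
    have : Fact p.Prime := ⟨hp.1⟩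
    have h8 := hp.2.1
    have h7 := hp.2.2
    refine (Pool.Agent.Y700.NN_affCount (by omega) (by omega)
      (Pool.Agent.Y687.prod_mod_four hT) ?_).symm
    intro h
    have h9 := (hT p (Pool.Agent.Y687.dvd_prod_primes (fun r hr => (hT r hr).1) hp.1 h)).2.1
    omega
  have hR : ∀ T : Finset ℕ, (∀ q ∈ T, Pool.Agent.Y687.Inert q) →
      R P (∏ q ∈ T, q) = Z701.mat P (∏ q ∈ T, q) := by
    intro T hT
    unfold R Z701.mat
    ext i j
    simp only [Matrix.of_apply]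
    rw [e T i.1 i.2 hT]
  have hS' : ∀ q ∈ S, Z701.Nr q := hS
  have hSI : ∀ q ∈ S, Y687.Inert q := hS
  have hEq : RankZeroShaTwo (WM (((∏ p ∈ P, p) * ∏ q ∈ S, q : ℕ) : ℤ)) ↔
      Odd (Z700.Yd Z700.lres (Z701.xrS S) P) := by
    have h1 := Z702.equiv Z702.f_COC Z702.f_LOT Z702.f_COB Z702.f_TOR Z702.f_LOC Z702.f_LIN
      Z702.f_TRN Z701.f_SELA Z701.f_SELB hne hP' hS'
    unfold RankZeroShaTwo
    rw [h1]
    refine and_congr Iff.rfl (forall_congr' fun x => ?_)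
    rw [two_nsmul]
    rfl
  refine ⟨fun hev => ?_, ?_, ?_⟩
  · obtain ⟨c1, c2, y, c3, c4⟩ := Z702.fullB Z702.f_COC Z702.f_LOT Z702.f_COB Z702.f_TOR
      Z702.f_LOC Z702.f_LIN Z702.f_TRN Z702.f_TORS Pool.Agent.Y809.BSD14.t_E0
      Pool.Agent.Y809.BSD14.t_TIN
      Pool.Agent.Y809.BSD14.t_TSP Pool.Agent.Y641.BSD14.t2 Pool.Agent.Y641.BSD14.t7
      Pool.Agent.Y248.BSD14.t Pool.Agent.Y814.BSD14.t_MIN
      Z700.f_SYM Z701.f_DIAG Z701.f_IND Y655.Z7.t_RTE Z701.f_XRS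
      Z701.f_SELA Z701.f_SELB hP' hS' hev hne _ rfl
    have hy : Odd y ↔ RankZeroShaTwo (WM (((∏ p ∈ P, p) * ∏ q ∈ S, q : ℕ) : ℤ)) := by
      rw [c3]
      refine and_congr Iff.rfl (forall_congr' fun x => ?_)
      rw [two_nsmul]
      rfl
    have hT : Odd y → Finite (EQ (WM (((∏ p ∈ P, p) * ∏ q ∈ S, q : ℕ) : ℤ))).toAffine.Point ∧
        (∀ (n : ℕ) (x : Pool.Agent.TH841.SH.D.Sha
          (EQ (WM (((∏ p ∈ P, p) * ∏ q ∈ S, q : ℕ) : ℤ)))), 2 ^ n • x = 0 → x = 0) ∧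
        ∀ f, IsL (WM (((∏ p ∈ P, p) * ∏ q ∈ S, q : ℕ) : ℤ)) f → f 1 ≠ 0 := by
      intro ho
      have hY := hEq.1 (hy.1 ho)
      have h5 := Z701.two_part Pool.Agent.Y809.BSD14.t_E0
        Pool.Agent.Y809.BSD14.t_TIN
        Pool.Agent.Y809.BSD14.t_TSP Pool.Agent.Y641.BSD14.t2 Pool.Agent.Y641.BSD14.t7
        Pool.Agent.Y248.BSD14.t Pool.Agent.Y814.BSD14.t_MIN
        Z700.f_SYM Z701.f_DIAG Z701.f_IND Y655.Z7.t_RTE Z701.f_XRS
        Z701.f_SELA Z701.f_SELB hP' hS' hev hne hY _ rfl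
      exact ⟨h5.2.1, h5.2.2.1, fun f hf => (h5.2.2.2.2 f hf).1⟩
    refine ⟨c1, c2, y, hy, fun ho => (hT ho).2.1, fun f hf => ⟨fun ho => (hT ho).2.2 f hf, c4 f hf⟩⟩
  · rw [hEq, hR S hSI]
    exact (Z701.condP_iff Z701.f_RTE hP' hS').symm
  · refine (Z701.f_EXI P S hP' hS').mono ?_
    rintro q ⟨h1, h2, h3⟩
    refine ⟨h1, h2, ?_⟩
    have hI : ∀ r ∈ insert q S, Z701.Nr r := by
      intro r hr
      rcases Finset.mem_insert.1 hr with rfl | hr
      · exact h1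
      · exact hS' r hr
    have h4 := (Z701.condP_iff Z701.f_RTE hP' hI).2 (by convert h3 using 6)
    unfold Z701.CondP Z700.pr at h4
    rw [← hR _ hI] at h4
    convert h4 using 6

end Pool.Agent.Results.MP_92892c_nt.FormulaModuloTwo
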