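import Pool.Agent.Y687.K2.RankForm

/-!
The rank form of the Birch and Swinnerton-Dyer conjecture (with order of vanishing and rank both
equal to `0`) for the quadratic twists `E_M` of the non-CM curve
`X_0(14) : y² = x³ + 5805 x - 285714` where `M` is a product of one or two primes which split in the
`2`-division field `ℚ(√-7)` and of primes inert there, whenever the matrix over `𝔽₂` which governs
the `2`-isogeny Selmer groups is nonsingular.
-/

set_option autoImplicit false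

open Finset

namespace Pool.Agent.Results.MP_696deb_nt.TwistsSplitPrimes

/-- coefficients of the twist `E_M : y² = x³ + A M x + B M` of `X_0(14)` -/
def A (M : ℕ) : ℤ := 5805 * (M : ℤ) ^ 2

/-- coefficients of the twist `E_M : y² = x³ + A M x + B M` of `X_0(14)` -/
def B (M : ℕ) : ℤ := -285714 * (M : ℤ) ^ 3

/-- number of points of `E_M` over `ZMod p`, the point at infinity included -/
noncomputable def N (M p : ℕ) : ℕ :=
  1 + Nat.card {z : ZMod p × ZMod p // z.2 ^ 2 = z.1 ^ 3 + (A M : ZMod p) * z.1 + (B M : ZMod p)}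

/-- the conclusion of the frozen statement for `y² = x³ + a x + b`, together with the fact that the
order of vanishing and the rank are both `0` -/
def BSDRankZero (a b : ℤ) : Prop :=
  4 * a ^ 3 + 27 * b ^ 2 ≠ 0 ∧
    ∃ F : ℂ → ℂ, Differentiable ℂ F ∧
      (∀ s : ℂ, (3 : ℝ) / 2 < s.re →
        HasProd
          (fun p : ℕ => open Classical in
            if p.Prime ∧ ¬ ((p : ℤ) ∣ 2 * (-4 * a ^ 3 - 27 * b ^ 2)) then
              (1 - ((p : ℂ) - (Nat.card {q : ZMod p × ZMod p //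
                  q.2 ^ 2 = q.1 ^ 3 + (a : ZMod p) * q.1 + (b : ZMod p)} : ℂ))
                  * (p : ℂ) ^ (-s) + (p : ℂ) ^ (1 - 2 * s))⁻¹
            else 1)
          (F s)) ∧
      analyticOrderAt F 1 =
        ((Module.finrank ℤ
          (WeierstrassCurve.Affine.Point
            (WeierstrassCurve.toAffine
              ({ a₁ := 0, a₂ := 0, a₃ := 0, a₄ := (a : ℚ), a₆ := (b : ℚ) } :
                WeierstrassCurve ℚ))) : ℕ) : ℕ∞) ∧
      Module.finrank ℤ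
        (WeierstrassCurve.Affine.Point
          (WeierstrassCurve.toAffine
            ({ a₁ := 0, a₂ := 0, a₃ := 0, a₄ := (a : ℚ), a₆ := (b : ℚ) } :
              WeierstrassCurve ℚ))) = 0

/-- primes inert in `ℚ(√-7)` and in `ℚ(√2)` and congruent to `1` modulo `4` -/
def Inert (q : ℕ) : Prop := q.Prime ∧ q % 8 = 5 ∧ (q % 7 = 3 ∨ q % 7 = 5 ∨ q % 7 = 6)

/-- primes congruent to `1` modulo `8` that split in `ℚ(√-7)` -/
def Split (p : ℕ) : Prop := p.Prime ∧ p % 8 = 1 ∧ (p % 7 = 1 ∨ p % 7 = 2 ∨ p % 7 = 4)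

/-- the condition on the pair of split primes: both, and if `p₁` is not a square modulo `p₂` at
least one, of the numbers of points of `E_m` modulo `p₁` and modulo `p₂` are not divisible by `8` -/
def Cond (p₁ p₂ m : ℕ) : Prop :=
  (¬ 8 ∣ N m p₁ ∧ ¬ 8 ∣ N m p₂) ∨
    (¬ IsSquare (p₁ : ZMod p₂) ∧ (¬ 8 ∣ N m p₁ ∨ ¬ 8 ∣ N m p₂))

theorem result :
    (∀ (p : ℕ) (S : Finset ℕ), Split p → (∀ q ∈ S, Inert q) →
      (¬ 8 ∣ N (∏ q ∈ S, q) p →
        BSDRankZero (A (p * ∏ q ∈ S, q)) (B (p * ∏ q ∈ S, q))) ∧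
      {q : ℕ | Inert q ∧ q ∉ S ∧ ¬ 8 ∣ N (∏ r ∈ insert q S, r) p}.Infinite) ∧
    (∀ (p₁ p₂ : ℕ) (S : Finset ℕ), Split p₁ → Split p₂ → p₁ ≠ p₂ → (∀ q ∈ S, Inert q) →
      (Cond p₁ p₂ (∏ q ∈ S, q) →
        BSDRankZero (A (p₁ * p₂ * ∏ q ∈ S, q)) (B (p₁ * p₂ * ∏ q ∈ S, q))) ∧
      {q : ℕ | Inert q ∧ q ∉ S ∧ Cond p₁ p₂ (∏ r ∈ insert q S, r)}.Infinite) := by
  have hN : ∀ m p : ℕ, N m p = Y687.NN m p := fun m p => by
    unfold N Y687.NN Y687.cnt A B
    rw [add_comm]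
  have hD : ∀ M : ℕ, M ≠ 0 → 4 * A M ^ 3 + 27 * B M ^ 2 ≠ 0 := by
    intro M hM
    have e : 4 * A M ^ 3 + 27 * B M ^ 2 = (4 * 5805 ^ 3 + 27 * 285714 ^ 2) * (M : ℤ) ^ 6 := by
      unfold A B
      ring
    rw [e]
    exact mul_ne_zero (by norm_num) (pow_ne_zero 6 (by exact_mod_cast hM))
  have key : ∀ M : ℕ, M ≠ 0 → Y687.RankBSD (A M) (B M) → BSDRankZero (A M) (B M) := by
    intro M hM h
    obtain ⟨F, h1, h2, h3, h4⟩ := h
    refine ⟨hD M hM, F, h1, h2, ?_, h4⟩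
    rw [h3, h4]
    rfl
  refine ⟨fun p S hp hS => ⟨fun h8 => ?_, ?_⟩, fun p₁ p₂ S hp₁ hp₂ hne hS => ⟨fun h8 => ?_, ?_⟩⟩
  · have hp' : Y687.Split p := hp
    have hS' : ∀ q ∈ S, Y687.Inert q := hS
    rw [hN] at h8
    obtain ⟨⟨f, hf, hfp, hf1⟩, hfin⟩ := Y687.main hp' hS' h8
    refine key _ (Nat.mul_ne_zero hp.1.ne_zero
      (Finset.prod_ne_zero_iff.2 fun r hr => (hS r hr).1.ne_zero)) ?_
    exact Y687.rankBSD hf hfp hf1 hfin
  · refine (Y687.infinite_q (p := p) (S := S) hp hS).mono ?_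
    rintro q ⟨h1, h2, h3⟩
    exact ⟨h1, h2, by rw [hN]; exact h3⟩
  · have h8' : Y687.Cond2 p₁ p₂ (∏ q ∈ S, q) := by
      unfold Cond at h8
      simp only [hN] at h8
      exact h8
    have hp1' : Y687.Split p₁ := hp₁
    have hp2' : Y687.Split p₂ := hp₂
    have hS' : ∀ q ∈ S, Y687.Inert q := hS
    obtain ⟨⟨f, hf, hfp, hf1⟩, hfin⟩ := Y687.main2 hne hp1' hp2' hS' h8'
    refine key _ (Nat.mul_ne_zero (Nat.mul_ne_zero hp₁.1.ne_zero hp₂.1.ne_zero)
      (Finset.prod_ne_zero_iff.2 fun r hr => (hS r hr).1.ne_zero)) ?_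
    exact Y687.rankBSD hf hfp hf1 hfin
  · refine (Y687.infinite_q2 (S := S) hne hp₁ hp₂ hS).mono ?_
    rintro q ⟨h1, h2, h3, h4⟩
    refine ⟨h1, h2, Or.inl ?_⟩
    rw [hN, hN]
    exact ⟨h3, h4⟩

end Pool.Agent.Results.MP_696deb_nt.TwistsSplitPrimes
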