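import Pool.Agent.Z702.Fin

/-!
A `2`-converse theorem: the rank form of the Birch and Swinnerton-Dyer conjecture (with order of
vanishing and rank both equal to `0`) for ALL quadratic twists `E_M` of the non-CM curve
`X_0(14) : y² = x³ + 5805 x - 285714` with `E_M(ℚ)` finite and `Ш(E_M)[2] = 0`, where `M` runs over
the products of arbitrarily many primes congruent to `1` modulo `8` which split in the `2`-division
field `ℚ(√-7)`, and of an even number of primes congruent to `5` modulo `8` which are inert there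
(any number of them, if there are at most two split primes). The hypothesis holds if and only if an
explicit matrix over `𝔽₂` is nonsingular.
-/

set_option autoImplicit false

open Finset

namespace Pool.Agent.Results.MP_696deb_nt.TwoConverse

/-- coefficients of the twist `E_M : y² = x³ + A M x + B M` of `X_0(14)` -/
def A (M : ℕ) : ℤ := 5805 * (M : ℤ) ^ 2

/-- coefficients of the twist `E_M : y² = x³ + A M x + B M` of `X_0(14)` -/
def B (M : ℕ) : ℤ := -285714 * (M : ℤ) ^ 3

/-- the curve `E_M` over `ℚ` -/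
def E (M : ℕ) : WeierstrassCurve ℚ :=
  { a₁ := 0, a₂ := 0, a₃ := 0, a₄ := (A M : ℚ), a₆ := (B M : ℚ) }

/-- `E_M(ℚ)` is finite and `Ш(E_M/ℚ)` has no element of order two -/
def RankZeroShaTwo (M : ℕ) : Prop :=
  Finite (E M).toAffine.Point ∧ ∀ x : Pool.Agent.TH841.SH.D.Sha (E M), 2 • x = 0 → x = 0

/-- number of points of `E_M` over `ZMod p`, the point at infinity included -/
noncomputable def N (M p : ℕ) : ℕ :=
  1 + Nat.card {z : ZMod p × ZMod p // z.2 ^ 2 = z.1 ^ 3 + (A M : ZMod p) * z.1 + (B M : ZMod p)}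

/-- the conclusion of the frozen statement for `y² = x³ + a x + b`, together with the fact that the
order of vanishing and the rank are both `0` -/
def BSDRankZero (a b : ℤ) : Prop :=
  4 * a ^ 3 + 27 * b ^ 2 ≠ 0 ∧
    ∃ F : ℂ → ℂ, Differentiable ℂ F ∧
      (∀ s : ℂ, (3 : ℝ) / 2 < s.re →
        HasProd
          (fun p : ℕ => open Classical in
            if p.Prime ∧ ¬ ((p : ℤ) ∣ 2 * (-4 * a ^ 3 - 27 * b ^ 2)) then
              (1 - ((p : ℂ) - (Nat.card {q : ZMod p × ZMod p //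
                  q.2 ^ 2 = q.1 ^ 3 + (a : ZMod p) * q.1 + (b : ZMod p)} : ℂ))
                  * (p : ℂ) ^ (-s) + (p : ℂ) ^ (1 - 2 * s))⁻¹
            else 1)
          (F s)) ∧
      analyticOrderAt F 1 =
        ((Module.finrank ℤ
          (WeierstrassCurve.Affine.Point
            (WeierstrassCurve.toAffine
              ({ a₁ := 0, a₂ := 0, a₃ := 0, a₄ := (a : ℚ), a₆ := (b : ℚ) } :
                WeierstrassCurve ℚ))) : ℕ) : ℕ∞) ∧
      Module.finrank ℤ
        (WeierstrassCurve.Affine.Point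
          (WeierstrassCurve.toAffine
            ({ a₁ := 0, a₂ := 0, a₃ := 0, a₄ := (a : ℚ), a₆ := (b : ℚ) } :
              WeierstrassCurve ℚ))) = 0

/-- primes inert in `ℚ(√-7)` and in `ℚ(√2)` and congruent to `1` modulo `4` -/
def Inert (q : ℕ) : Prop := q.Prime ∧ q % 8 = 5 ∧ (q % 7 = 3 ∨ q % 7 = 5 ∨ q % 7 = 6)

/-- primes congruent to `1` modulo `8` that split in `ℚ(√-7)` -/
def Split (p : ℕ) : Prop := p.Prime ∧ p % 8 = 1 ∧ (p % 7 = 1 ∨ p % 7 = 2 ∨ p % 7 = 4)

open Classical in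
/-- the matrix over `𝔽₂` with rows and columns indexed by the primes in `P`: off the diagonal the
entry at `(p, p')` is `1` if `p'` is not a square modulo `p` and `0` otherwise; on the diagonal it
is the number of the primes in `P` different from `p` which are not squares modulo `p`, plus `1` if
the number of points of `E_m` modulo `p` is not divisible by `8` -/
noncomputable def R (P : Finset ℕ) (m : ℕ) : Matrix P P (ZMod 2) := Matrix.of fun i j =>
  if i = j then
    (((P.filter fun p' : ℕ => p' ≠ (i : ℕ) ∧ ¬ IsSquare (p' : ZMod (i : ℕ))).card : ZMod 2) +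
      if 8 ∣ N m (i : ℕ) then 0 else 1)
  else if IsSquare (((j : ℕ)) : ZMod (i : ℕ)) then 0 else 1

theorem result (P S : Finset ℕ) (hP : ∀ p ∈ P, Split p) (hS : ∀ q ∈ S, Inert q)
    (hne : P.Nonempty) :
    (Even S.card ∨ P.card ≤ 2 → RankZeroShaTwo ((∏ p ∈ P, p) * ∏ q ∈ S, q) →
      BSDRankZero (A ((∏ p ∈ P, p) * ∏ q ∈ S, q)) (B ((∏ p ∈ P, p) * ∏ q ∈ S, q))) ∧
    (RankZeroShaTwo ((∏ p ∈ P, p) * ∏ q ∈ S, q) ↔ (R P (∏ q ∈ S, q)).det ≠ 0) ∧
    {q : ℕ | Inert q ∧ q ∉ S ∧ (R P (∏ r ∈ insert q S, r)).det ≠ 0}.Infinite := by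
  classical
  have hN : ∀ m p : ℕ, N m p = Y687.NN m p := fun m p => by
    unfold N Y687.NN Y687.cnt A B
    rw [add_comm]
  have hR : ∀ m : ℕ, R P m = Z701.mat P m := by
    intro m
    unfold R Z701.mat
    ext i j
    simp only [Matrix.of_apply, hN]
  have hD : ∀ M : ℕ, M ≠ 0 → 4 * A M ^ 3 + 27 * B M ^ 2 ≠ 0 := by
    intro M hM
    have e : 4 * A M ^ 3 + 27 * B M ^ 2 = (4 * 5805 ^ 3 + 27 * 285714 ^ 2) * (M : ℤ) ^ 6 := by
      unfold A B
      ring
    rw [e]
    exact mul_ne_zero (by norm_num) (pow_ne_zero 6 (by exact_mod_cast hM))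
  have key : ∀ M : ℕ, M ≠ 0 → Y687.RankBSD (A M) (B M) → BSDRankZero (A M) (B M) := by
    intro M hM h
    obtain ⟨F, h1, h2, h3, h4⟩ := h
    refine ⟨hD M hM, F, h1, h2, ?_, h4⟩
    rw [h3, h4]
    rfl
  have hP' : ∀ p ∈ P, Z701.Sp p := hP
  have hS' : ∀ q ∈ S, Z701.Nr q := hS
  have hSI : ∀ q ∈ S, Y687.Inert q := hS
  have hM0 : (∏ p ∈ P, p) * ∏ q ∈ S, q ≠ 0 := Nat.mul_ne_zero
    (Finset.prod_ne_zero_iff.2 fun r hr => (hP r hr).1.ne_zero)
    (Finset.prod_ne_zero_iff.2 fun r hr => (hS r hr).1.ne_zero)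
  have hEq : RankZeroShaTwo ((∏ p ∈ P, p) * ∏ q ∈ S, q) ↔ Odd (Z700.Yd Z700.lres (Z701.xrS S) P) := by
    have h1 := Z702.equivS Z702.f_COC Z702.f_LOT Z702.f_COB Z702.f_TOR Z702.f_LOC Z702.f_LIN
      Z702.f_TRN Z701.f_SELA Z701.f_SELB hne hP' hS'
    unfold RankZeroShaTwo
    rw [h1]
    refine and_congr Iff.rfl (forall_congr' fun x => ?_)
    rw [two_nsmul]
    rfl
  refine ⟨fun hor hsel => ?_, ?_, ?_⟩
  · have hY := hEq.1 hsel
    have hC : Z701.CondP P (Z700.pr S) := (Z701.condP_iff Z701.f_RTE hP' hS').2 hY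
    refine key _ hM0 ?_
    rcases hor with hev | hle
    · exact Z701.rank_form Z700.f_SYM Z701.f_DIAG Z701.f_IND Y655.Z7.t_RTE Z701.f_XRS
        Z701.f_SELA Z701.f_SELB hP' hS' hev hne hY
    · have h1 : 1 ≤ P.card := hne.card_pos
      rcases (by omega : P.card = 1 ∨ P.card = 2) with hc | hc
      · obtain ⟨p, rfl⟩ := Finset.card_eq_one.1 hc
        have hp : Z701.Sp p := hP' p (Finset.mem_singleton_self p)
        have h8 := Z701.cond_one Z701.f_RTE hp hS' hC
        obtain ⟨⟨f, hf, hfp, hf1⟩, hfin⟩ := Y687.main hp hSI h8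
        rw [Finset.prod_singleton]
        exact Y687.rankBSD hf hfp hf1 hfin
      · obtain ⟨p, q, hpq, rfl⟩ := Finset.card_eq_two.1 hc
        have hp : Z701.Sp p := hP' p (by simp)
        have hq : Z701.Sp q := hP' q (by simp)
        have h8 := Z701.cond_two Z701.f_RTE hp hq hpq hS' hC
        obtain ⟨⟨f, hf, hfp, hf1⟩, hfin⟩ := Y687.main2 hpq hp hq hSI h8
        rw [Finset.prod_pair hpq]
        exact Y687.rankBSD hf hfp hf1 hfin
  · rw [hEq, hR]
    exact (Z701.condP_iff Z701.f_RTE hP' hS').symm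
  · refine (Z701.f_EXI P S hP' hS').mono ?_
    rintro q ⟨h1, h2, h3⟩
    refine ⟨h1, h2, ?_⟩
    have hI : ∀ r ∈ insert q S, Z701.Nr r := by
      intro r hr
      rcases Finset.mem_insert.1 hr with rfl | hr
      · exact h1
      · exact hS' r hr
    rw [hR]
    have h4 := (Z701.condP_iff Z701.f_RTE hP' hI).2 (by convert h3 using 6)
    unfold Z701.CondP Z700.pr at h4
    convert h4 using 6

end Pool.Agent.Results.MP_696deb_nt.TwoConverse
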