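import Pool.Agent.Z701.Fin
import Pool.Agent.Y809.BSD14.Tam3
import Pool.Agent.Y809.BSD14.Selb
import Pool.Agent.Y248.BSD14.Omega
import Pool.Agent.Y814.BSD14.SEL
import Pool.Agent.Y641.BSD14.T2
import Pool.Agent.Y641.BSD14.T7

/-!
# The `2`-part of the leading-term formula of Birch and Swinnerton-Dyer for twists of `X_0(14)` by
products of arbitrarily many primes which split in the `2`-division field, and of inert primes

`E_M : Y² = X (X² + 13 M X + 128 M²)` is the quadratic twist of `X_0(14)` by `M`, with the global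
minimal equation `WM M` (`M = 1 mod 4` squarefree, prime to `7`). Its field of `2`-division is
`ℚ(√-7)`. Here `M` is the product of the primes in `P` (at least two primes, congruent to `1` modulo
`8` and split in this field) and in `S` (primes congruent to `5` modulo `8` and inert); the number
of elements of `S` is even, or `P` has two elements. If the matrix over `𝔽₂` given by the Legendre
symbols of the primes in `P` and by the orders of `E_m(𝔽_p)`, `p ∈ P`, `m = ∏ S`, is nonsingular,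
the value `L(E_M, 1)` is not zero, the group `E_M(ℚ)` is finite, the Tate-Shafarevich group has no
`2`-torsion, and the quotient of the analytic and of the algebraic constant is a rational number
with `2`-adic valuation zero.
-/

set_option autoImplicit false

open Finset

namespace Pool.Agent.Results.MP_92892c_nt.TwoPartManySplitPrimes

open Pool.Agent.W97.MT (affCount IsGloballyMinimal)
open Pool.Agent.Y700 (WM Omega tamProd IsL EQ)

/-- primes inert in `ℚ(√-7)` and in `ℚ(√2)` and congruent to `1` modulo `4` -/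
def Inert (q : ℕ) : Prop := q.Prime ∧ q % 8 = 5 ∧ (q % 7 = 3 ∨ q % 7 = 5 ∨ q % 7 = 6)

/-- primes congruent to `1` modulo `8` that split in `ℚ(√-7)` -/
def Split (p : ℕ) : Prop := p.Prime ∧ p % 8 = 1 ∧ (p % 7 = 1 ∨ p % 7 = 2 ∨ p % 7 = 4)

open Classical in
/-- the matrix over `𝔽₂` with rows and columns indexed by the primes in `P`: off the diagonal the
entry at `(p, p')` is `1` if `p'` is not a square modulo `p` and `0` otherwise; on the diagonal it
is the number of the primes in `P` different from `p` which are not squares modulo `p`, plus `1` if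
the number of points of `E_m` modulo `p` is not divisible by `8` -/
noncomputable def R (P : Finset ℕ) (m : ℕ) : Matrix P P (ZMod 2) := Matrix.of fun i j =>
  if i = j then
    (((P.filter fun p' : ℕ => p' ≠ (i : ℕ) ∧ ¬ IsSquare (p' : ZMod (i : ℕ))).card : ZMod 2) +
      if 8 ∣ affCount (WM (m : ℤ)) (i : ℕ) + 1 then 0 else 1)
  else if IsSquare (((j : ℕ)) : ZMod (i : ℕ)) then 0 else 1

/-- For the curve with the global minimal equation `W`: `E(ℚ)` is finite, `Ш(E/ℚ)[2^∞] = 0`, and the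
`L`-function of `E` (the entire function equal to the Euler product for `Re s > 3/2`) satisfies
`L(E, 1) = u Ω ∏ c_l / #E(ℚ)²`, not zero, with a rational number `u` of `2`-adic valuation
`0 = ord_2 #Ш(E/ℚ)[2^∞]`; if moreover `Ш(E/ℚ)` is finite, then the analytic constant
`L(E, 1) / Ω` is `v` times the algebraic constant `#Ш(E/ℚ) ∏ c_l / #E(ℚ)²`, with a rational
number `v` of `2`-adic valuation `0`. -/
def TwoPart (W : WeierstrassCurve ℤ) : Prop :=
  IsGloballyMinimal W ∧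
  Finite (EQ W).toAffine.Point ∧
  (∀ (n : ℕ) (x : Pool.Agent.TH841.SH.D.Sha (EQ W)), 2 ^ n • x = 0 → x = 0) ∧
  (∃ f, IsL W f) ∧
  ∀ f, IsL W f → f 1 ≠ 0 ∧
    (∃ u : ℚ, padicValRat 2 u = 0 ∧ f 1 =
      (((u : ℝ) * (Omega W * tamProd W / (Nat.card (EQ W).toAffine.Point : ℝ) ^ 2) : ℝ) : ℂ)) ∧
    (Finite (Pool.Agent.TH841.SH.D.Sha (EQ W)) → ∃ v : ℚ, padicValRat 2 v = 0 ∧ v ≠ 0 ∧
      f 1 / Omega W = (((v : ℝ) * (Nat.card (Pool.Agent.TH841.SH.D.Sha (EQ W)) * tamProd W /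
        (Nat.card (EQ W).toAffine.Point : ℝ) ^ 2) : ℝ) : ℂ))

/-- a finite group without `2`-torsion has odd order -/
theorem odd_card {A : Type*} [AddCommGroup A] [Finite A]
    (h : ∀ (n : ℕ) (x : A), 2 ^ n • x = 0 → x = 0) : ¬ 2 ∣ Nat.card A := by
  intro h2
  have : Fact (Nat.Prime 2) := ⟨Nat.prime_two⟩
  obtain ⟨x, hx⟩ := exists_prime_addOrderOf_dvd_card' (G := A) 2 h2
  have h0 : x = 0 := h 1 x (by rw [pow_one, ← hx]; exact addOrderOf_nsmul_eq_zero x)
  rw [h0, addOrderOf_zero] at hx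
  omega

theorem aux (u : ℚ) (n : ℕ) (O t c : ℝ) (hO : O ≠ 0) (hn : (n : ℝ) ≠ 0) :
    (u : ℝ) * (O * t / c ^ 2) / O = ((u / (n : ℚ) : ℚ) : ℝ) * (n * t / c ^ 2) := by
  push_cast
  field_simp

/-- from the formula to both forms of the statement -/
theorem twoPart_of {W : WeierstrassCurve ℤ} (h : IsGloballyMinimal W ∧
    Finite (EQ W).toAffine.Point ∧
    (∀ (n : ℕ) (x : Pool.Agent.TH841.SH.D.Sha (EQ W)), 2 ^ n • x = 0 → x = 0) ∧
    (∃ f, IsL W f) ∧ ∀ f, IsL W f → f 1 ≠ 0 ∧ ∃ u : ℚ, padicValRat 2 u = 0 ∧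
      f 1 = (((u : ℝ) * (Omega W * tamProd W / (Nat.card (EQ W).toAffine.Point : ℝ) ^ 2) : ℝ) : ℂ)) :
    TwoPart W := by
  obtain ⟨a1, a2, a3, a4, a5⟩ := h
  refine ⟨a1, a2, a3, a4, fun f hf => ?_⟩
  obtain ⟨b1, u, b2, b3⟩ := a5 f hf
  refine ⟨b1, ⟨u, b2, b3⟩, fun hfin => ?_⟩
  have hodd := odd_card a3
  have hu : u ≠ 0 := by
    rintro rfl
    apply b1
    rw [b3]
    simp
  have hO : Omega W ≠ 0 := by
    intro h0
    apply b1
    rw [b3, h0]
    simp
  have hc0 : (Nat.card (Pool.Agent.TH841.SH.D.Sha (EQ W)) : ℚ) ≠ 0 := by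
    rw [Nat.cast_ne_zero]
    exact Nat.card_pos.ne'
  refine ⟨u / (Nat.card (Pool.Agent.TH841.SH.D.Sha (EQ W)) : ℚ), ?_, div_ne_zero hu hc0, ?_⟩
  · rw [padicValRat.div hu hc0, b2, padicValRat.of_nat, padicValNat.eq_zero_of_not_dvd hodd]
    simp
  · have hc1 : (Nat.card (Pool.Agent.TH841.SH.D.Sha (EQ W)) : ℝ) ≠ 0 := by exact_mod_cast hc0
    rw [b3, ← Complex.ofReal_div, aux _ _ _ _ _ hO hc1]

theorem result (P S : Finset ℕ) (hP : ∀ p ∈ P, Split p) (hS : ∀ q ∈ S, Inert q)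
    (h2P : 2 ≤ P.card) :
    (Even S.card ∨ P.card = 2 → (R P (∏ q ∈ S, q)).det ≠ 0 →
      TwoPart (WM (((∏ p ∈ P, p) * ∏ q ∈ S, q : ℕ) : ℤ))) ∧
    {q : ℕ | Inert q ∧ q ∉ S ∧ (R P (∏ r ∈ insert q S, r)).det ≠ 0}.Infinite := by
  classical
  have hne : P.Nonempty := Finset.card_pos.1 (by omega)
  have hP' : ∀ p ∈ P, Z701.Sp p := hP
  have e : ∀ (T : Finset ℕ) (p : ℕ), p ∈ P → (∀ q ∈ T, Pool.Agent.Y687.Inert q) →
      affCount (WM ((∏ q ∈ T, q : ℕ) : ℤ)) p + 1 = Pool.Agent.Y687.NN (∏ q ∈ T, q) p := by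
    intro T p hpP hT
    have hp := hP p hpP
    have : Fact p.Prime := ⟨hp.1⟩
    have h8 := hp.2.1
    have h7 := hp.2.2
    refine (Pool.Agent.Y700.NN_affCount (by omega) (by omega)
      (Pool.Agent.Y687.prod_mod_four hT) ?_).symm
    intro h
    have h9 := (hT p (Pool.Agent.Y687.dvd_prod_primes (fun r hr => (hT r hr).1) hp.1 h)).2.1
    omega
  have hR : ∀ T : Finset ℕ, (∀ q ∈ T, Pool.Agent.Y687.Inert q) →
      R P (∏ q ∈ T, q) = Z701.mat P (∏ q ∈ T, q) := by
    intro T hT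
    unfold R Z701.mat
    ext i j
    simp only [Matrix.of_apply]
    rw [e T i.1 i.2 hT]
  have hS' : ∀ q ∈ S, Z701.Nr q := hS
  have hSI : ∀ q ∈ S, Y687.Inert q := hS
  refine ⟨fun hor hdet => ?_, ?_⟩
  · have hC : Z701.CondP P (Z700.pr S) := by
      rw [hR S hSI] at hdet
      exact hdet
    refine twoPart_of ?_
    rcases hor with hev | hc
    · exact Z701.two_part Pool.Agent.Y809.BSD14.t_E0
        Pool.Agent.Y809.BSD14.t_TIN
        Pool.Agent.Y809.BSD14.t_TSP Pool.Agent.Y641.BSD14.t2 Pool.Agent.Y641.BSD14.t7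
        Pool.Agent.Y248.BSD14.t Pool.Agent.Y814.BSD14.t_MIN
        Z700.f_SYM Z701.f_DIAG Z701.f_IND Y655.Z7.t_RTE Z701.f_XRS
        Z701.f_SELA Z701.f_SELB hP' hS' hev hne ((Z701.condP_iff Z701.f_RTE hP' hS').1 hC) _ rfl
    · obtain ⟨p, q, hpq, rfl⟩ := Finset.card_eq_two.1 hc
      have hp : Z701.Sp p := hP' p (by simp)
      have hq : Z701.Sp q := hP' q (by simp)
      have h8 := Z701.cond_two Z701.f_RTE hp hq hpq hS' hC
      refine Pool.Agent.Y700.main2 Pool.Agent.Y809.BSD14.t_E0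
        Pool.Agent.Y809.BSD14.t_TIN
        Pool.Agent.Y809.BSD14.t_TSP Pool.Agent.Y641.BSD14.t2 Pool.Agent.Y641.BSD14.t7
        Pool.Agent.Y248.BSD14.t Pool.Agent.Y809.BSD14.t_SEL1b Pool.Agent.Y809.BSD14.t_SEL2b
        Pool.Agent.Y814.BSD14.t_MIN hpq hp hq hSI h8 _ ?_
      rw [Finset.prod_pair hpq]
  · refine (Z701.f_EXI P S hP' hS').mono ?_
    rintro q ⟨h1, h2, h3⟩
    refine ⟨h1, h2, ?_⟩
    have hI : ∀ r ∈ insert q S, Z701.Nr r := by
      intro r hr
      rcases Finset.mem_insert.1 hr with rfl | hr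
      · exact h1
      · exact hS' r hr
    have h4 := (Z701.condP_iff Z701.f_RTE hP' hI).2 (by convert h3 using 6)
    unfold Z701.CondP Z700.pr at h4
    rw [← hR _ hI] at h4
    convert h4 using 6

end Pool.Agent.Results.MP_92892c_nt.TwoPartManySplitPrimes
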