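import Pool.Agent.Y700.Fin2
import Pool.Agent.Y809.BSD14.Tam3
import Pool.Agent.Y809.BSD14.Selb
import Pool.Agent.Y248.BSD14.Omega
import Pool.Agent.Y814.BSD14.SEL
import Pool.Agent.Y641.BSD14.T2
import Pool.Agent.Y641.BSD14.T7

/-!
# The `2`-part of the leading-term formula of Birch and Swinnerton-Dyer for twists of `X_0(14)` by
`p₁ p₂ q₁ ⋯ q_r`, with two primes split in the `2`-division field

`E_M : Y² = X (X² + 13 M X + 128 M²)` is the quadratic twist of `X_0(14)` by `M`, with the global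
minimal equation `WM M` (`M = 1 mod 4` squarefree, prime to `7`). Its field of `2`-division is
`ℚ(√-7)`. Here `M = p₁ p₂ q₁ ⋯ q_r`, with `p₁ ≠ p₂` congruent to `1` modulo `8` and split in this
field, and the `q_i = 5 mod 8` inert. If the `2 × 2` matrix over `𝔽₂` given by the orders of
`E_m(𝔽_{p_i})`, `m = q₁ ⋯ q_r`, and by the symbol `(p₁ / p₂)` is nonsingular, the value `L(E_M, 1)`
is not zero, the group `E_M(ℚ)` is finite, the Tate-Shafarevich group has no `2`-torsion, and the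
quotient of the analytic and of the algebraic constant is a rational number with `2`-adic
valuation zero.
-/

set_option autoImplicit false

open Finset

namespace Pool.Agent.Results.MP_92892c_nt.TwoPartTwoSplitPrimes

open Pool.Agent.W97.MT (affCount IsGloballyMinimal)
open Pool.Agent.Y700 (WM Omega tamProd IsL EQ)

/-- primes inert in `ℚ(√-7)` and in `ℚ(√2)` and congruent to `1` modulo `4` -/
def Inert (q : ℕ) : Prop := q.Prime ∧ q % 8 = 5 ∧ (q % 7 = 3 ∨ q % 7 = 5 ∨ q % 7 = 6)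

/-- primes congruent to `1` modulo `8` that split in `ℚ(√-7)` -/
def Split (p : ℕ) : Prop := p.Prime ∧ p % 8 = 1 ∧ (p % 7 = 1 ∨ p % 7 = 2 ∨ p % 7 = 4)

/-- the condition on the pair of split primes: both, and if `p₁` is not a square modulo `p₂` at
least one, of the numbers of points of `E_m` modulo `p₁` and modulo `p₂` are not divisible by `8` -/
def Cond (p₁ p₂ m : ℕ) : Prop :=
  (¬ 8 ∣ affCount (WM (m : ℤ)) p₁ + 1 ∧ ¬ 8 ∣ affCount (WM (m : ℤ)) p₂ + 1) ∨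
    (¬ IsSquare (p₁ : ZMod p₂) ∧
      (¬ 8 ∣ affCount (WM (m : ℤ)) p₁ + 1 ∨ ¬ 8 ∣ affCount (WM (m : ℤ)) p₂ + 1))

/-- For the curve with the global minimal equation `W`: `E(ℚ)` is finite, `Ш(E/ℚ)[2^∞] = 0`, and the
`L`-function of `E` (the entire function equal to the Euler product for `Re s > 3/2`) satisfies
`L(E, 1) = u Ω ∏ c_l / #E(ℚ)²`, not zero, with a rational number `u` of `2`-adic valuation
`0 = ord_2 #Ш(E/ℚ)[2^∞]`; if moreover `Ш(E/ℚ)` is finite, then the analytic constant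
`L(E, 1) / Ω` is `v` times the algebraic constant `#Ш(E/ℚ) ∏ c_l / #E(ℚ)²`, with a rational
number `v` of `2`-adic valuation `0`. -/
def TwoPart (W : WeierstrassCurve ℤ) : Prop :=
  IsGloballyMinimal W ∧
  Finite (EQ W).toAffine.Point ∧
  (∀ (n : ℕ) (x : Pool.Agent.TH841.SH.D.Sha (EQ W)), 2 ^ n • x = 0 → x = 0) ∧
  (∃ f, IsL W f) ∧
  ∀ f, IsL W f → f 1 ≠ 0 ∧
    (∃ u : ℚ, padicValRat 2 u = 0 ∧ f 1 =
      (((u : ℝ) * (Omega W * tamProd W / (Nat.card (EQ W).toAffine.Point : ℝ) ^ 2) : ℝ) : ℂ)) ∧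
    (Finite (Pool.Agent.TH841.SH.D.Sha (EQ W)) → ∃ v : ℚ, padicValRat 2 v = 0 ∧ v ≠ 0 ∧
      f 1 / Omega W = (((v : ℝ) * (Nat.card (Pool.Agent.TH841.SH.D.Sha (EQ W)) * tamProd W /
        (Nat.card (EQ W).toAffine.Point : ℝ) ^ 2) : ℝ) : ℂ))

/-- a finite group without `2`-torsion has odd order -/
theorem odd_card {A : Type*} [AddCommGroup A] [Finite A]
    (h : ∀ (n : ℕ) (x : A), 2 ^ n • x = 0 → x = 0) : ¬ 2 ∣ Nat.card A := by
  intro h2
  have : Fact (Nat.Prime 2) := ⟨Nat.prime_two⟩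
  obtain ⟨x, hx⟩ := exists_prime_addOrderOf_dvd_card' (G := A) 2 h2
  have h0 : x = 0 := h 1 x (by rw [pow_one, ← hx]; exact addOrderOf_nsmul_eq_zero x)
  rw [h0, addOrderOf_zero] at hx
  omega

theorem aux (u : ℚ) (n : ℕ) (O t c : ℝ) (hO : O ≠ 0) (hn : (n : ℝ) ≠ 0) :
    (u : ℝ) * (O * t / c ^ 2) / O = ((u / (n : ℚ) : ℚ) : ℝ) * (n * t / c ^ 2) := by
  push_cast
  field_simp

theorem result (p₁ p₂ : ℕ) (S : Finset ℕ) (hp₁ : Split p₁) (hp₂ : Split p₂) (hne : p₁ ≠ p₂)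
    (hS : ∀ q ∈ S, Inert q) :
    (Cond p₁ p₂ (∏ q ∈ S, q) → TwoPart (WM ((p₁ * p₂ * ∏ q ∈ S, q : ℕ) : ℤ))) ∧
    {q : ℕ | Inert q ∧ q ∉ S ∧ Cond p₁ p₂ (∏ r ∈ insert q S, r)}.Infinite := by
  classical
  have h1 : Pool.Agent.Y687.Split p₁ := hp₁
  have h2 : Pool.Agent.Y687.Split p₂ := hp₂
  have hSI : ∀ q ∈ S, Pool.Agent.Y687.Inert q := hS
  have e : ∀ (T : Finset ℕ) (p : ℕ), Pool.Agent.Y687.Split p →
      (∀ q ∈ T, Pool.Agent.Y687.Inert q) →
      affCount (WM ((∏ q ∈ T, q : ℕ) : ℤ)) p + 1 = Pool.Agent.Y687.NN (∏ q ∈ T, q) p := by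
    intro T p hp hT
    have : Fact p.Prime := ⟨hp.1⟩
    have h8 := hp.2.1
    have h7 := hp.2.2
    refine (Pool.Agent.Y700.NN_affCount (by omega) (by omega)
      (Pool.Agent.Y687.prod_mod_four hT) ?_).symm
    intro h
    have h9 := (hT p (Pool.Agent.Y687.dvd_prod_primes (fun r hr => (hT r hr).1) hp.1 h)).2.1
    omega
  refine ⟨fun hN => ?_, ?_⟩
  · unfold Cond at hN
    rw [e S p₁ h1 hSI, e S p₂ h2 hSI] at hN
    obtain ⟨a1, a2, a3, a4, a5⟩ := Pool.Agent.Y700.main2 Pool.Agent.Y809.BSD14.t_E0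
      Pool.Agent.Y809.BSD14.t_TIN
      Pool.Agent.Y809.BSD14.t_TSP Pool.Agent.Y641.BSD14.t2 Pool.Agent.Y641.BSD14.t7
      Pool.Agent.Y248.BSD14.t Pool.Agent.Y809.BSD14.t_SEL1b Pool.Agent.Y809.BSD14.t_SEL2b
      Pool.Agent.Y814.BSD14.t_MIN hne h1 h2 hSI hN _ rfl
    refine ⟨a1, a2, a3, a4, fun f hf => ?_⟩
    obtain ⟨b1, u, b2, b3⟩ := a5 f hf
    refine ⟨b1, ⟨u, b2, b3⟩, fun hfin => ?_⟩
    have hodd := odd_card a3
    have hu : u ≠ 0 := by
      rintro rfl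
      apply b1
      rw [b3]
      simp
    have hO : Omega (WM ((p₁ * p₂ * ∏ q ∈ S, q : ℕ) : ℤ)) ≠ 0 := by
      intro h0
      apply b1
      rw [b3, h0]
      simp
    have hc0 : (Nat.card (Pool.Agent.TH841.SH.D.Sha
        (EQ (WM ((p₁ * p₂ * ∏ q ∈ S, q : ℕ) : ℤ)))) : ℚ) ≠ 0 := by
      rw [Nat.cast_ne_zero]
      exact Nat.card_pos.ne'
    refine ⟨u / (Nat.card (Pool.Agent.TH841.SH.D.Sha
        (EQ (WM ((p₁ * p₂ * ∏ q ∈ S, q : ℕ) : ℤ)))) : ℚ), ?_, div_ne_zero hu hc0, ?_⟩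
    · rw [padicValRat.div hu hc0, b2, padicValRat.of_nat, padicValNat.eq_zero_of_not_dvd hodd]
      simp
    · have hc1 : (Nat.card (Pool.Agent.TH841.SH.D.Sha
        (EQ (WM ((p₁ * p₂ * ∏ q ∈ S, q : ℕ) : ℤ)))) : ℝ) ≠ 0 := by exact_mod_cast hc0
      rw [b3, ← Complex.ofReal_div, aux _ _ _ _ _ hO hc1]
  · refine (Pool.Agent.Y687.infinite_q2 hne h1 h2 hSI).mono ?_
    rintro q ⟨hq, hqS, h3, h4⟩
    have hI : ∀ r ∈ insert q S, Pool.Agent.Y687.Inert r := by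
      intro r hr
      rcases Finset.mem_insert.1 hr with rfl | hr
      · exact hq
      · exact hSI r hr
    refine ⟨hq, hqS, Or.inl ?_⟩
    rw [e _ p₁ h1 hI, e _ p₂ h2 hI]
    constructor
    · convert h3 using 6
    · convert h4 using 6

end Pool.Agent.Results.MP_92892c_nt.TwoPartTwoSplitPrimes
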